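import Pool.Agent.V11211.CF8

/-!
# Galkin and Shinder's conjecture: planes and the divisors `𝒞_d`, `d = 2 p ^ 2`

Let `X` be a smooth cubic fourfold, `A` the lattice of its Hodge classes in `H^4(X, ℤ)`, `ρ` the rank
of `A` and `ℓ` the two-rank of the discriminant group of `A`. The discriminant of the lattice spanned
by `h` and `T` is `disc T = 3 T.T - (h.T)^2`.

* `H.HasK3` says that `X ∈ 𝒞_d` for some admissible `d` (the condition (**) of Hassett; by theorems of
  Hassett, Addington, Thomas and others `X` has an associated K3 surface in the sense of Hodge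
  theory, and in the sense of Kuznetsov).
* `HasHilbertSquare H` says that `X ∈ 𝒞_d` for some `d > 6` with `a ^ 2 d = 2 n ^ 2 + 2 n + 2` (the
  condition (***) of Addington; by his theorem it means that `F(X)` is birational to `S^[2]` for some
  K3 surface `S`).

It is stronger than (**) in general: `d = 74`, or `d = 98`, for very general `X ∈ 𝒞_d`. The
theorem says:

1. If `X ∈ 𝒞_d`, where `d = 2 p ^ 2` and `p` is `2` or a prime number congruent to `3` modulo `4`,
   and if `ρ ≥ 3` (or `p ≤ 3`), then (**) and (***) are equivalent for `X`, so that the conjectures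
   of Hassett, Kuznetsov and Galkin–Shinder are equivalent for `X`. If moreover `p` is congruent
   to `1` modulo `3`, then (***) holds.
2. If `X` contains a plane, then `F(X)` is birational to `S^[2]` for some K3 surface `S` if and only
   if there is a Hodge class `T` such that `disc T` is not divisible by `4`. If this is not the
   case, then `ℓ = ρ - 1` and `ρ ≤ 12`.
3. If `X` contains `N ≥ 1` planes and `(N, ρ, ℓ)` is not exceptional (`Exceptional`), then `X` is
   rational and `F(X)` is birational to `S^[2]` for some K3 surface `S`.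

The known facts on `H^4(X, ℤ)` which are used are collected in `H4.IsCohomology`
(`Pool/Agent/Y95/Q/Defs.lean`): see the docstring there.
-/

namespace Pool.Agent.Results.MP_4d0966_ag.HassettAndHilbertSquares

open Pool.Agent.Y95.Q Pool.Agent.V11211.CF

/-- **The conditions of Hassett and of Addington, and rationality.** -/
theorem result {X : CubicFourfold} {H : H4 X} (hH : H.IsCohomology) :
    (∀ (p : ℕ) (v : Fin 23 → ℤ), p.Prime → (p = 2 ∨ p % 4 = 3) → H.IsHodge v →
      H.disc v = 2 * (p : ℤ) ^ 2 → (3 ≤ H.rank ∨ p ≤ 3) →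
        (H.HasK3 ↔ HasHilbertSquare H) ∧ (p % 3 = 1 → HasHilbertSquare H)) ∧
    (Nonempty X.Plane →
      (HasHilbertSquare H ↔ ∃ T, H.IsHodge T ∧ ¬ 4 ∣ H.disc T) ∧
      (¬ HasHilbertSquare H → twoRank H + 1 = H.rank ∧ H.rank ≤ 12)) ∧
    (Nat.card X.Plane ≠ 0 → ¬ Exceptional (Nat.card X.Plane) H.rank (twoRank H) →
      X.IsRational ∧ HasHilbertSquare H) := by
  refine ⟨fun p v hp hp4 hv hd h3 => ⟨hasK3_iff_prime hH hp hp4 hv hd h3, fun hp3 => ?_⟩,
    fun ⟨P⟩ => ⟨hilbertSquare_iff hH P, fun hn => ?_⟩, fun h0 h =>
    hilbertSquare_of_not_allEven hH (not_allEven hH h0 h)⟩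
  · have := hp.two_le
    exact hilbertSquare_prime hH hp (by omega) (by omega) hv hd (by omega) (Or.inl hp3)
  · have h1 := twoRank_of_four_dvd hH (fun T hT => by
      by_contra h4
      exact hn ((hilbertSquare_iff hH P).2 ⟨T, hT, h4⟩))
    have h2 := twoRank_add_rank_le hH
    exact ⟨h1, by omega⟩

end Pool.Agent.Results.MP_4d0966_ag.HassettAndHilbertSquares
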